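import Pool.Agent.Helper74.UB.Goals3

/-!
# Packet UB-TRIF: triangles of the flat part
-/

namespace Pool.Agent.Helper46.UB

open Finset Equiv Helper28.VF Pool.Agent.Helper74.UB
open scoped Classical

/-- A face of three darts. -/
theorem tri_of {V D E F : Type} [Fintype V] [Fintype D] [Fintype E] [Fintype F] (M : PM D V E F)
    {a b c : D} (h1 : ph M a = b) (h2 : ph M b = c) (h3 : ph M c = a) :
    T3 M a ∧ ∀ x, M.fc x = M.fc a ↔ x = a ∨ x = b ∨ x = c := by
  have g1 : (M.σ * M.α) a = b := h1
  have g2 : (M.σ * M.α) b = c := h2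
  have g3 : (M.σ * M.α) c = a := h3
  have i1 : (M.σ * M.α)⁻¹ b = a := by rw [Perm.inv_eq_iff_eq, g1]
  have i2 : (M.σ * M.α)⁻¹ c = b := by rw [Perm.inv_eq_iff_eq, g2]
  have i3 : (M.σ * M.α)⁻¹ a = c := by rw [Perm.inv_eq_iff_eq, g3]
  refine ⟨?_, fun x => ?_⟩
  · unfold T3
    rw [h1, h2, h3]
  · rw [M.fc_iff]
    constructor
    · intro h
      obtain ⟨n, hn⟩ := h.symm
      have key : ∀ n : ℤ, ((M.σ * M.α) ^ n) a = a ∨ ((M.σ * M.α) ^ n) a = b ∨
          ((M.σ * M.α) ^ n) a = c := by
        intro n
        induction n using Int.induction_on with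
        | zero => left; simp
        | succ n ih =>
          rw [add_comm, zpow_add, zpow_one, Perm.mul_apply]
          rcases ih with e | e | e
          · rw [e, g1]; exact Or.inr (Or.inl rfl)
          · rw [e, g2]; exact Or.inr (Or.inr rfl)
          · rw [e, g3]; exact Or.inl rfl
        | pred n ih =>
          rw [sub_eq_add_neg, add_comm, zpow_add, zpow_neg_one, Perm.mul_apply]
          rcases ih with e | e | e
          · rw [e, i3]; exact Or.inr (Or.inr rfl)
          · rw [e, i1]; exact Or.inl rfl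
          · rw [e, i2]; exact Or.inr (Or.inl rfl)
      have := key n
      rw [hn] at this
      exact this
    · rintro (rfl | rfl | rfl)
      · exact Perm.SameCycle.refl _ _
      · refine Perm.SameCycle.symm ⟨1, ?_⟩
        rw [zpow_one]; exact g1
      · refine ⟨1, ?_⟩
        rw [zpow_one]; exact g3

theorem nat_ne (K : ℕ) (hK : 1 ≤ K) (m : ℕ) (h0 : 0 < m) (h6 : m < 6) :
    ((m : ℕ) : ZMod (3 * 2 ^ K)) ≠ 0 := by
  intro h
  rw [ZMod.natCast_eq_zero_iff] at h
  have h1 := Nat.le_of_dvd h0 h
  have h2 : 2 ^ 1 ≤ 2 ^ K := Nat.pow_le_pow_right (by norm_num) hK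
  omega

theorem trif : StmtTriF := by
  intro K h V D E F _ _ _ _ L f M dE dW dU dN hH hM r i hr0 hrh hodd
  have FL := hH.flat
  have one : (1 : ZMod (3 * 2 ^ K)) ≠ 0 := by
    simpa using nat_ne K hH.K1 1 (by norm_num) (by norm_num)
  have two : (1 : ZMod (3 * 2 ^ K)) + 1 ≠ 0 := by
    have := nat_ne K hH.K1 2 (by norm_num) (by norm_num)
    intro h0
    apply this
    rw [← h0]
    push_cast
    norm_num
  obtain ⟨n, rfl⟩ := Int.eq_ofNat_of_zero_le hr0
  have hnh : n < h := by exact_mod_cast hrh
  have hno : ¬ Even n := fun h0 => hodd (by exact_mod_cast h0)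
  generalize hr : (n : ℤ) = r at *
  have eR : ∀ j, L.e (f r j) = f r (j + 1) := fun j => by
    have := FL.e n j (by omega) hnh.le
    rw [hr] at this
    exact this
  have eR1 : ∀ j, L.e (f (r + 1) j) = f (r + 1) (j + 1) := fun j => by
    have := FL.e (n + 1) j (by omega) hnh
    push_cast at this
    rw [hr] at this
    exact this
  have inj1 : ∀ j k, f (r + 1) j = f (r + 1) k → j = k := fun j k hjk => by
    refine FL.inj (n + 1) j k (by omega) hnh ?_
    push_cast
    rw [hr]
    exact hjk
  have sR : ∀ j, L.e.symm (f r (j + 1)) = f r j := fun j => by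
    rw [← eR j, Equiv.symm_apply_apply]
  have sR1 : ∀ j, L.e.symm (f (r + 1) (j + 1)) = f (r + 1) j := fun j => by
    rw [← eR1 j, Equiv.symm_apply_apply]
  have up : ∀ j k, L.up (f r j) (f (r + 1) k) ↔ k = j ∨ k = j + 1 := by
    intro j k
    have h1 := FL.upT n j (f (r + 1) k) (by omega) hnh hno
    rw [hr] at h1
    rw [h1]
    constructor
    · rintro (h1 | h1)
      · exact Or.inl (inj1 _ _ h1)
      · exact Or.inr (inj1 _ _ h1)
    · rintro (rfl | rfl)
      · exact Or.inl rfl
      · exact Or.inr rfl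
  have u0 : ∀ j, L.up (f r j) (f (r + 1) j) := fun j => (up j j).2 (Or.inl rfl)
  have u1 : ∀ j, L.up (f r j) (f (r + 1) (j + 1)) := fun j => (up j (j + 1)).2 (Or.inr rfl)
  have n1 : ∀ j, ¬ L.up (f r (j + 1)) (f (r + 1) j) := by
    intro j hj
    rcases (up _ _).1 hj with h1 | h1
    · apply one
      have := congrArg (fun t => t - j) h1
      simp only [sub_self, add_sub_cancel_left] at this
      exact this.symm
    · apply two
      have := congrArg (fun t => t - j) h1
      simp only [sub_self, add_assoc, add_sub_cancel_left] at this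
      exact this.symm
  have n2 : ∀ j, ¬ L.up (f r j) (f (r + 1) (j + 1 + 1)) := by
    intro j hj
    rcases (up _ _).1 hj with h1 | h1
    · apply two
      have := congrArg (fun t => t - j) h1
      simp only [sub_self, add_assoc, add_sub_cancel_left] at this
      exact this
    · apply one
      have := congrArg (fun t => t - (j + 1)) h1
      simp only [sub_self, add_sub_cancel_left] at this
      exact this
  constructor
  · refine tri_of M ?_ ?_ ?_
    · have := hM.E2 (f r i) (f (r + 1) (i + 1))
        (by rw [eR]; exact u0 (i + 1)) (by rw [eR, sR1]; exact n1 i)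
      rw [eR] at this
      exact this
    · have := hM.U1 (f r (i + 1)) (f (r + 1) (i + 1)) (u0 (i + 1)) (by rw [sR]; exact u1 i)
      rw [sR] at this
      exact this
    · exact hM.N2 (f r i) (f (r + 1) (i + 1)) (u1 i) (by rw [eR1]; exact n2 i)
  · refine tri_of M ?_ ?_ ?_
    · exact hM.W2 (f r i) (f (r + 1) i) (u0 i) (by rw [eR]; exact n1 i)
    · have := hM.N1 (f r i) (f (r + 1) i) (u0 i) (by rw [eR1]; exact u1 i)
      rw [eR1] at this
      exact this
    · have := hM.U2 (f r i) (f (r + 1) (i + 1)) (u1 i) (by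
        have e1 : f r i = f r ((i - 1) + 1) := by rw [sub_add_cancel]
        have e2 : f (r + 1) (i + 1) = f (r + 1) ((i - 1) + 1 + 1) := by rw [sub_add_cancel]
        rw [e1, sR, e2]
        exact n2 (i - 1))
      rw [sR1] at this
      exact this

end Pool.Agent.Helper46.UB
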